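import Pool.Agent.W940.LSD.Stm

set_option autoImplicit false

/-! Project LS, part DENS: assembly. -/

namespace Pool.Agent.W940.LSD

open Finset Filter Pool.Agent.W307.LS

open scoped Classical

lemma yy_pow (T : ℕ) : (yy T) ^ 8 ≤ T := by
  have h1 := Nat.sqrt_le' T
  have h2 := Nat.sqrt_le' T.sqrt
  have h3 := Nat.sqrt_le' T.sqrt.sqrt
  calc yy T ^ 8 = ((yy T ^ 2) ^ 2) ^ 2 := by ring
    _ ≤ ((T.sqrt.sqrt) ^ 2) ^ 2 := Nat.pow_le_pow_left (Nat.pow_le_pow_left h3 2) 2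
    _ ≤ (T.sqrt) ^ 2 := Nat.pow_le_pow_left h2 2
    _ ≤ T := h1

lemma yy_sq (T : ℕ) : (yy T) ^ 2 ≤ T := by
  rcases Nat.eq_zero_or_pos (yy T) with h | h
  · rw [h]; simp
  · exact (Nat.pow_le_pow_right h (by norm_num)).trans (yy_pow T)

lemma LL_nonneg (y : ℕ) : 0 ≤ LL y := Finset.sum_nonneg fun p _ => by positivity

lemma sum_shift (f : ℤ → ℝ) (T : ℕ) (a : ℤ) :
    ∑ b ∈ Icc (-(T : ℤ)) T, f (a - b) =
      ∑ n ∈ Ico (a - T) (a - T + ((2 * T + 1 : ℕ) : ℤ)), f n := by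
  refine Finset.sum_nbij' (fun b => a - b) (fun n => a - n) ?_ ?_ ?_ ?_ ?_
  · intro b hb
    simp only [mem_Icc, mem_Ico] at *
    push_cast
    constructor <;> linarith [hb.1, hb.2]
  · intro b hb
    simp only [mem_Icc, mem_Ico] at *
    push_cast at hb
    constructor <;> linarith [hb.1, hb.2]
  · intro b _; ring
  · intro b _; ring
  · intro b _; rfl

lemma Icc_eq (T : ℕ) : Icc (-(T : ℤ)) T = Ico (-(T : ℤ)) (-(T : ℤ) + ((2 * T + 1 : ℕ) : ℤ)) := by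
  ext b
  simp only [mem_Icc, mem_Ico]
  push_cast
  constructor <;> rintro ⟨h1, h2⟩ <;> constructor <;> linarith

lemma card_I (T : ℕ) : ((Icc (-(T : ℤ)) T).card : ℝ) = 2 * (T : ℝ) + 1 := by
  rw [Icc_eq, Int.card_Ico]
  have : (-(T : ℤ) + ((2 * T + 1 : ℕ) : ℤ) - -(T : ℤ)).toNat = 2 * T + 1 := by
    omega
  rw [this]
  push_cast
  ring

lemma pt_ineq (x1 x2 x3 x4 : ℝ) :
    (x1 + x2 - x3 / 2 - x4 / 2) ^ 2 ≤ 4 * x1 ^ 2 + 4 * x2 ^ 2 + x3 ^ 2 + x4 ^ 2 := by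
  nlinarith [sq_nonneg (x1 - x2), sq_nonneg (x1 + x3 / 2), sq_nonneg (x1 + x4 / 2),
    sq_nonneg (x2 + x3 / 2), sq_nonneg (x2 + x4 / 2), sq_nonneg (x3 / 2 - x4 / 2)]

lemma secmom (hT : TUR) (hC : CHR) (y T : ℕ) :
    ∑ a ∈ Icc (-(T : ℤ)) T, ∑ b ∈ Icc (-(T : ℤ)) T, (gg y a b - 3 / 2 * LL y) ^ 2 ≤
      19 * (2 * (T : ℝ) + 1) ^ 2 * LL y + 39 * (2 * (T : ℝ) + 1) * (y : ℝ) ^ 2 := by
  have hI : ∀ a : ℤ, ∑ b ∈ Icc (-(T : ℤ)) T, ((ww y (a - b) : ℝ) - LL y) ^ 2 ≤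
      2 * (2 * (T : ℝ) + 1) * LL y + 4 * (y : ℝ) ^ 2 := by
    intro a
    have h := hT y (a - T) (2 * T + 1)
    rw [sum_shift (fun n => ((ww y n : ℝ) - LL y) ^ 2) T a]
    push_cast at h ⊢
    exact h
  have hI0 : ∑ b ∈ Icc (-(T : ℤ)) T, ((ww y b : ℝ) - LL y) ^ 2 ≤
      2 * (2 * (T : ℝ) + 1) * LL y + 4 * (y : ℝ) ^ 2 := by
    have h := hT y (-(T : ℤ)) (2 * T + 1)
    rw [Icc_eq]
    push_cast at h ⊢
    exact h
  have hpt : ∀ a b : ℤ, (gg y a b - 3 / 2 * LL y) ^ 2 ≤ 4 * ((ww y a : ℝ) - LL y) ^ 2 +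
      4 * ((ww y b : ℝ) - LL y) ^ 2 + ((ww y (a - b) : ℝ) - LL y) ^ 2 + VV y a b ^ 2 := by
    intro a b
    have h := pt_ineq ((ww y a : ℝ) - LL y) ((ww y b : ℝ) - LL y) ((ww y (a - b) : ℝ) - LL y)
      (VV y a b)
    refine le_trans (le_of_eq ?_) h
    unfold gg
    ring
  have hc := card_I T
  have h1 : ∀ a : ℤ, ∑ b ∈ Icc (-(T : ℤ)) T, (gg y a b - 3 / 2 * LL y) ^ 2 ≤
      (2 * (T : ℝ) + 1) * (4 * ((ww y a : ℝ) - LL y) ^ 2) +
        5 * (2 * (2 * (T : ℝ) + 1) * LL y + 4 * (y : ℝ) ^ 2) +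
          ∑ b ∈ Icc (-(T : ℤ)) T, VV y a b ^ 2 := by
    intro a
    refine (Finset.sum_le_sum fun b _ => hpt a b).trans ?_
    rw [Finset.sum_add_distrib, Finset.sum_add_distrib, Finset.sum_add_distrib,
      Finset.sum_const, nsmul_eq_mul, hc, ← Finset.mul_sum]
    have := hI a
    linarith
  refine (Finset.sum_le_sum fun a _ => h1 a).trans ?_
  rw [Finset.sum_add_distrib, Finset.sum_add_distrib, Finset.sum_const, nsmul_eq_mul, hc,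
    ← Finset.mul_sum, ← Finset.mul_sum]
  have h2 := hC y T
  have hN : (0 : ℝ) ≤ 2 * (T : ℝ) + 1 := by positivity
  have h3 : (2 * (T : ℝ) + 1) * (4 * ∑ b ∈ Icc (-(T : ℤ)) T, ((ww y b : ℝ) - LL y) ^ 2) ≤
      (2 * (T : ℝ) + 1) * (4 * (2 * (2 * (T : ℝ) + 1) * LL y + 4 * (y : ℝ) ^ 2)) :=
    mul_le_mul_of_nonneg_left (by linarith) hN
  refine (add_le_add (add_le_add h3 le_rfl) h2).trans (le_of_eq ?_)
  ring

lemma secmomT (hT : TUR) (hC : CHR) (T : ℕ) (h1 : 1 ≤ T) :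
    ∑ t ∈ Bx T, (gg (yy T) t.1 t.2 - 3 / 2 * LL (yy T)) ^ 2 ≤
      351 * (T : ℝ) ^ 2 * (LL (yy T) + 1) := by
  have h := secmom hT hC (yy T) T
  have hsub : ∑ t ∈ Bx T, (gg (yy T) t.1 t.2 - 3 / 2 * LL (yy T)) ^ 2 ≤
      ∑ a ∈ Icc (-(T : ℤ)) T, ∑ b ∈ Icc (-(T : ℤ)) T,
        (gg (yy T) a b - 3 / 2 * LL (yy T)) ^ 2 := by
    rw [← Finset.sum_product' (Icc (-(T : ℤ)) T) (Icc (-(T : ℤ)) T)
      (fun a b => (gg (yy T) a b - 3 / 2 * LL (yy T)) ^ 2)]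
    exact Finset.sum_le_sum_of_subset_of_nonneg (Finset.filter_subset _ _)
      fun t _ _ => sq_nonneg _
  refine (hsub.trans h).trans ?_
  have hT1 : (1 : ℝ) ≤ T := by exact_mod_cast h1
  have hy : ((yy T : ℕ) : ℝ) ^ 2 ≤ T := by exact_mod_cast yy_sq T
  have hL := LL_nonneg (yy T)
  have hN : 2 * (T : ℝ) + 1 ≤ 3 * T := by linarith
  have hN0 : (0 : ℝ) ≤ 2 * (T : ℝ) + 1 := by positivity
  have a1 : (2 * (T : ℝ) + 1) ^ 2 ≤ 9 * (T : ℝ) ^ 2 := by nlinarith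
  have a2 : (2 * (T : ℝ) + 1) * ((yy T : ℕ) : ℝ) ^ 2 ≤ 9 * (T : ℝ) ^ 2 := by
    calc (2 * (T : ℝ) + 1) * ((yy T : ℕ) : ℝ) ^ 2 ≤ (3 * T) * T :=
          mul_le_mul hN hy (by positivity) (by positivity)
      _ ≤ 9 * (T : ℝ) ^ 2 := by nlinarith
  have a3 : (2 * (T : ℝ) + 1) ^ 2 * LL (yy T) ≤ 9 * (T : ℝ) ^ 2 * LL (yy T) :=
    mul_le_mul_of_nonneg_right a1 hL
  have a4 : 0 ≤ (T : ℝ) ^ 2 * LL (yy T) := by positivity
  nlinarith

theorem dens (hT : TUR) (hC : CHR) (hM : MER) (hS : MSB) (hD : DET) : DENS := by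
  intro ε hε
  obtain ⟨C, hC0⟩ := hM
  have hll : Tendsto (fun T : ℕ => Real.log (Real.log T)) atTop atTop :=
    Real.tendsto_log_atTop.comp (Real.tendsto_log_atTop.comp tendsto_natCast_atTop_atTop)
  set K : ℝ := 9 * 351 * 2 / ε ^ 2 + 216 / ε with hK
  have hlim : Tendsto (fun T : ℕ => K / Real.log (Real.log T)) atTop (nhds 0) :=
    hll.const_div_atTop K
  refine tendsto_of_tendsto_of_tendsto_of_le_of_le' tendsto_const_nhds hlim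
    (Eventually.of_forall fun T => by positivity) ?_
  filter_upwards [hC0, hD, hll.eventually_ge_atTop (C + 1), hll.eventually_ge_atTop 1,
    hll.eventually_ge_atTop ((3 / 2 * C + 9) * 3 / ε), eventually_ge_atTop 1]
    with T m1 m2 m3 m4 m5 m6
  set l := Real.log (Real.log T) with hl
  set L := LL (yy T) with hLdef
  have hT0 : (0 : ℝ) < T := by exact_mod_cast m6
  have hl0 : 0 < l := by linarith
  have hL1 : l - C ≤ L := by have := (abs_le.1 m1).1; linarith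
  have hL2 : L + 1 ≤ 2 * l := by have := (abs_le.1 m1).2; linarith
  have m5' : 3 / 2 * C + 9 ≤ ε * l / 3 := by
    rw [div_le_iff₀ hε] at m5
    linarith
  set Bad := (Bx T).filter (fun t =>
    ((SS t.1 t.2).card : ℝ) - (BB t.1 t.2).card < (3 / 2 - ε) * l) with hBad
  have hpos : 0 < ε * l := mul_pos hε hl0
  have key : ∀ t ∈ Bad, (1 : ℝ) ≤ 9 / (ε * l) ^ 2 * (gg (yy T) t.1 t.2 - 3 / 2 * L) ^ 2 +
      9 / (ε * l) * (MM t.1 t.2 : ℝ) := by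
    intro t ht
    rw [hBad, mem_filter] at ht
    have h1 := m2 t ht.1
    have h2 := ht.2
    have hMM : (0 : ℝ) ≤ (MM t.1 t.2 : ℝ) := Nat.cast_nonneg _
    set D := gg (yy T) t.1 t.2 - 3 / 2 * L with hDdef
    have h3 : 2 / 3 * (ε * l) ≤ 3 * (MM t.1 t.2 : ℝ) - D := by
      have e : gg (yy T) t.1 t.2 = D + 3 / 2 * L := by rw [hDdef]; ring
      rw [e] at h1
      nlinarith
    have hq : 0 ≤ 9 / (ε * l) ^ 2 * D ^ 2 := by positivity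
    have hq2 : 0 ≤ 9 / (ε * l) * (MM t.1 t.2 : ℝ) := by positivity
    by_cases hcase : ε * l / 3 ≤ 3 * (MM t.1 t.2 : ℝ)
    · have : 1 ≤ 9 / (ε * l) * (MM t.1 t.2 : ℝ) := by
        rw [div_mul_eq_mul_div, le_div_iff₀ hpos]
        linarith
      linarith
    · have h4 : ε * l / 3 ≤ -D := by linarith
      have h5 : (ε * l / 3) ^ 2 ≤ D ^ 2 := by
        have h6 : 0 ≤ ε * l / 3 := by positivity
        nlinarith
      have : 1 ≤ 9 / (ε * l) ^ 2 * D ^ 2 := by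
        rw [div_mul_eq_mul_div, le_div_iff₀ (by positivity)]
        nlinarith
      linarith
  have hcard : (Bad.card : ℝ) ≤ 9 / (ε * l) ^ 2 * (351 * (T : ℝ) ^ 2 * (L + 1)) +
      9 / (ε * l) * (24 * (T : ℝ) ^ 2) := by
    have e1 : (Bad.card : ℝ) ≤ ∑ t ∈ Bad, (9 / (ε * l) ^ 2 * (gg (yy T) t.1 t.2 - 3 / 2 * L) ^ 2 +
      9 / (ε * l) * (MM t.1 t.2 : ℝ)) := by
      have := Finset.sum_le_sum key
      rw [Finset.sum_const, nsmul_eq_mul, mul_one] at this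
      exact this
    have e2 : ∑ t ∈ Bad, (9 / (ε * l) ^ 2 * (gg (yy T) t.1 t.2 - 3 / 2 * L) ^ 2 +
        9 / (ε * l) * (MM t.1 t.2 : ℝ)) ≤
        ∑ t ∈ Bx T, (9 / (ε * l) ^ 2 * (gg (yy T) t.1 t.2 - 3 / 2 * L) ^ 2 +
        9 / (ε * l) * (MM t.1 t.2 : ℝ)) := by
      refine Finset.sum_le_sum_of_subset_of_nonneg (Finset.filter_subset _ _) fun t _ _ => ?_
      positivity
    have e3 := secmomT hT hC T m6
    have e4 := hS T
    have e5 : ∑ t ∈ Bx T, (9 / (ε * l) ^ 2 * (gg (yy T) t.1 t.2 - 3 / 2 * L) ^ 2 +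
        9 / (ε * l) * (MM t.1 t.2 : ℝ)) =
        9 / (ε * l) ^ 2 * ∑ t ∈ Bx T, (gg (yy T) t.1 t.2 - 3 / 2 * L) ^ 2 +
        9 / (ε * l) * ∑ t ∈ Bx T, (MM t.1 t.2 : ℝ) := by
      rw [Finset.sum_add_distrib, ← Finset.mul_sum, ← Finset.mul_sum]
    rw [e5] at e2
    refine (e1.trans e2).trans (add_le_add ?_ ?_)
    · exact mul_le_mul_of_nonneg_left e3 (by positivity)
    · exact mul_le_mul_of_nonneg_left e4 (by positivity)
  rw [div_le_iff₀ (by positivity)]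
  refine hcard.trans ?_
  have f1 : 9 / (ε * l) ^ 2 * (351 * (T : ℝ) ^ 2 * (L + 1)) ≤
      9 / (ε * l) ^ 2 * (351 * (T : ℝ) ^ 2 * (2 * l)) := by
    apply mul_le_mul_of_nonneg_left _ (by positivity)
    exact mul_le_mul_of_nonneg_left hL2 (by positivity)
  refine (add_le_add f1 le_rfl).trans (le_of_eq ?_)
  rw [hK]
  field_simp
  ring

end Pool.Agent.W940.LSD
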