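import Pool.Agent.W940.LSD.Stm

set_option autoImplicit false

/-! Project LS, part DENS: the second moment of the character sum. -/

namespace Pool.Agent.W940.LSD

open Finset Filter Pool.Agent.W307.LS

open scoped Classical

/-- sum of a function over an interval as a sum over a range -/
lemma sum_Ico_range (f : ℤ → ℝ) (A : ℤ) (N : ℕ) :
    ∑ a ∈ Ico A (A + N), f a = ∑ i ∈ range N, f (A + i) := by
  refine Finset.sum_nbij' (fun a => (a - A).toNat) (fun i => A + i) ?_ ?_ ?_ ?_ ?_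
  · intro a ha
    simp only [mem_Ico, mem_range] at *
    omega
  · intro a ha
    simp only [mem_Ico, mem_range] at *
    omega
  · intro a ha
    simp only [mem_Ico] at ha
    omega
  · intro a ha
    simp
  · intro a ha
    simp only [mem_Ico] at ha
    congr 1
    omega

lemma complete (p q : ℕ) [Fact p.Prime] [Fact q.Prime] (hp : p ≠ 2) (hq : q ≠ 2) (hpq : p ≠ q)
    (A : ℤ) :
    ∑ i ∈ range (p * q), ((jacobiSym (A + i) p * jacobiSym (A + i) q : ℤ) : ℝ) = 0 := by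
  have hcop : Nat.Coprime p q := (Nat.coprime_primes Fact.out Fact.out).2 hpq
  haveI : NeZero (p * q) := ⟨Nat.mul_ne_zero (Fact.out : p.Prime).ne_zero
    (Fact.out : q.Prime).ne_zero⟩
  set e := ZMod.chineseRemainder hcop with he
  set F : ZMod (p * q) → ℤ := fun x => quadraticChar (ZMod p) (e x).1 *
    quadraticChar (ZMod q) (e x).2 with hF
  have hsum : ∑ x : ZMod (p * q), F x = 0 := by
    have h1 : ∑ x : ZMod (p * q), F x = ∑ z : ZMod p × ZMod q,
        quadraticChar (ZMod p) z.1 * quadraticChar (ZMod q) z.2 :=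
      Equiv.sum_comp e.toEquiv (fun z : ZMod p × ZMod q =>
        quadraticChar (ZMod p) z.1 * quadraticChar (ZMod q) z.2)
    rw [h1, Fintype.sum_prod_type]
    have h2 : ∑ x : ZMod p, ∑ y : ZMod q, quadraticChar (ZMod p) x * quadraticChar (ZMod q) y =
        (∑ x : ZMod p, quadraticChar (ZMod p) x) * ∑ y : ZMod q, quadraticChar (ZMod q) y := by
      rw [Finset.sum_mul_sum]
    rw [h2, quadraticChar_sum_zero (by rw [ZMod.ringChar_zmod_n]; exact hp), zero_mul]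
  have hval : ∀ a : ℤ, jacobiSym a p * jacobiSym a q = F ((a : ℤ) : ZMod (p * q)) := by
    intro a
    rw [hF]
    simp only [map_intCast, Prod.fst_intCast, Prod.snd_intCast]
    rw [← jacobiSym.legendreSym.to_jacobiSym, ← jacobiSym.legendreSym.to_jacobiSym]
    rfl
  have hcount : ∑ i ∈ range (p * q), F (((A + (i : ℤ) : ℤ)) : ZMod (p * q)) =
      ∑ x : ZMod (p * q), F x := by
    refine Finset.sum_bij (fun (i : ℕ) _ => (((A + (i : ℤ) : ℤ)) : ZMod (p * q))) (fun _ _ => mem_univ _)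
      ?_ ?_ (fun _ _ => rfl)
    · intro i hi j hj hij
      have hi' := mem_range.1 hi
      have hj' := mem_range.1 hj
      have h3 : ((i : ℕ) : ZMod (p * q)) = ((j : ℕ) : ZMod (p * q)) := by
        have := hij
        push_cast at this
        exact add_left_cancel this
      rw [ZMod.natCast_eq_natCast_iff'] at h3
      rwa [Nat.mod_eq_of_lt hi', Nat.mod_eq_of_lt hj'] at h3
    · intro x _
      refine ⟨(x - ((A : ℤ) : ZMod (p * q))).val, mem_range.2 (ZMod.val_lt _), ?_⟩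
      push_cast
      rw [ZMod.natCast_zmod_val]
      ring
  have : ∑ i ∈ range (p * q), (jacobiSym (A + i) p * jacobiSym (A + i) q : ℤ) = 0 := by
    rw [Finset.sum_congr rfl fun (i : ℕ) _ => hval (A + i), hcount, hsum]
  exact_mod_cast this

lemma charsum (p q : ℕ) [Fact p.Prime] [Fact q.Prime] (hp : p ≠ 2) (hq : q ≠ 2) (hpq : p ≠ q)
    (N : ℕ) : ∀ A : ℤ,
    |∑ i ∈ range N, ((jacobiSym (A + i) p * jacobiSym (A + i) q : ℤ) : ℝ)| ≤ ((p * q : ℕ) : ℝ) := by
  have hone : ∀ (a : ℤ) (r : ℕ), |((jacobiSym a r : ℤ) : ℝ)| ≤ 1 := by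
    intro a r
    rcases jacobiSym.trichotomy a r with h | h | h <;> rw [h] <;> simp
  induction N using Nat.strong_induction_on with
  | _ N ih =>
    intro A
    rcases le_or_gt N (p * q) with hN | hN
    · refine (Finset.abs_sum_le_sum_abs _ _).trans ?_
      have h1 : ∀ i ∈ range N,
          |((jacobiSym (A + i) p * jacobiSym (A + i) q : ℤ) : ℝ)| ≤ 1 := by
        intro i _
        push_cast
        rw [abs_mul]
        exact mul_le_one₀ (hone _ _) (abs_nonneg _) (hone _ _)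
      refine (Finset.sum_le_sum h1).trans ?_
      rw [Finset.sum_const, card_range, nsmul_eq_mul, mul_one]
      exact_mod_cast hN
    · obtain ⟨k, rfl⟩ : ∃ k, N = p * q + k := ⟨N - p * q, by omega⟩
      rw [Finset.sum_range_add, complete p q hp hq hpq A, zero_add]
      have hpos : 0 < p * q := Nat.mul_pos (Fact.out : p.Prime).pos (Fact.out : q.Prime).pos
      have := ih k (by omega) (A + ((p * q : ℕ) : ℤ))
      refine le_trans (le_of_eq ?_) this
      congr 1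
      refine Finset.sum_congr rfl fun i _ => ?_
      have e1 : A + (((p * q + i : ℕ)) : ℤ) = A + ((p * q : ℕ) : ℤ) + (i : ℤ) := by
        push_cast; ring
      rw [e1]

lemma countI (T : ℕ) (a : ℤ) (m : ℕ) (hm : 0 < m) :
    |(((Icc (-(T : ℤ)) T).filter (fun b => (m : ℤ) ∣ a - b)).card : ℝ) -
      (2 * (T : ℝ) + 1) / m| ≤ 1 := by
  have hI : Icc (-(T : ℤ)) T = Ioc (-(T : ℤ) - 1) T := by
    ext b; simp only [mem_Icc, mem_Ioc]; omega
  have hF : (Icc (-(T : ℤ)) T).filter (fun b => (m : ℤ) ∣ a - b) =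
      (Ioc (-(T : ℤ) - 1) T).filter (fun b => b ≡ a [ZMOD m]) := by
    rw [hI]
    apply Finset.filter_congr
    intro b _
    exact (Int.modEq_iff_dvd).symm
  rw [hF]
  have hm' : (0 : ℤ) < m := by exact_mod_cast hm
  have h := Int.Ioc_filter_modEq_card (-(T : ℤ) - 1) T hm' a
  have h2 : (((Ioc (-(T : ℤ) - 1) (T : ℤ)).filter (fun b => b ≡ a [ZMOD m])).card : ℝ) =
      ((max (⌊((T : ℤ) - a) / ((m : ℤ) : ℚ)⌋ - ⌊((-(T : ℤ) - 1 : ℤ) - a) / ((m : ℤ) : ℚ)⌋) 0 : ℤ) : ℝ) := by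
    rw [← h]
    push_cast
    rfl
  rw [h2]
  have hmq : (0 : ℚ) < ((m : ℤ) : ℚ) := by exact_mod_cast hm
  set u : ℚ := ((T : ℤ) - a) / ((m : ℤ) : ℚ) with hu
  set v : ℚ := ((-(T : ℤ) - 1 : ℤ) - a) / ((m : ℤ) : ℚ) with hv
  have huv : u - v = (2 * (T : ℚ) + 1) / m := by
    rw [hu, hv, ← sub_div]
    push_cast
    congr 1
    ring
  have hle : v ≤ u := by
    have : 0 ≤ u - v := by rw [huv]; positivity
    linarith
  have hfl : ⌊v⌋ ≤ ⌊u⌋ := Int.floor_le_floor hle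
  rw [max_eq_left (by omega)]
  have b1 := Int.floor_le u
  have b2 := Int.lt_floor_add_one u
  have b3 := Int.floor_le v
  have b4 := Int.lt_floor_add_one v
  have hr : (2 * (T : ℝ) + 1) / m = ((u - v : ℚ) : ℝ) := by
    rw [huv]; push_cast; ring
  rw [hr]
  have c1 : ((⌊u⌋ - ⌊v⌋ : ℤ) : ℚ) - (u - v) ≤ 1 := by push_cast; linarith
  have c2 : -1 ≤ ((⌊u⌋ - ⌊v⌋ : ℤ) : ℚ) - (u - v) := by push_cast; linarith
  rw [abs_le]
  constructor
  · exact_mod_cast c2
  · exact_mod_cast c1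

lemma PP_card (y : ℕ) : ((PP y).card : ℝ) ≤ y := by
  have h : (PP y).card ≤ y := by
    have h1 : PP y ⊆ Icc 1 y := by
      intro p hp
      unfold PP at hp
      rw [mem_filter, mem_range] at hp
      exact mem_Icc.2 ⟨hp.2.1.pos, by omega⟩
    exact (Finset.card_le_card h1).trans (by simp)
  exact_mod_cast h

/-- one pair of primes -/
lemma pairbound (T p q : ℕ) (hp : p.Prime) (hp2 : p ≠ 2) (hq : q.Prime) (hq2 : q ≠ 2) :
    ∑ a ∈ Icc (-(T : ℤ)) T, ∑ b ∈ Icc (-(T : ℤ)) T,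
      (if (p : ℤ) ∣ a - b then ((jacobiSym a p : ℤ) : ℝ) else 0) *
        (if (q : ℤ) ∣ a - b then ((jacobiSym a q : ℤ) : ℝ) else 0) ≤
      (if p = q then (2 * (T : ℝ) + 1) ^ 2 * (1 / (p : ℝ)) else 0) + 2 * (2 * (T : ℝ) + 1) := by
  haveI := Fact.mk hp
  haveI := Fact.mk hq
  have hone : ∀ (a : ℤ) (r : ℕ), |((jacobiSym a r : ℤ) : ℝ)| ≤ 1 := by
    intro a r
    rcases jacobiSym.trichotomy a r with h | h | h <;> rw [h] <;> simp
  have hcI : ((Icc (-(T : ℤ)) T).card : ℝ) = 2 * (T : ℝ) + 1 := by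
    rw [Int.card_Icc]
    have : ((T : ℤ) + 1 - -(T : ℤ)).toNat = 2 * T + 1 := by omega
    rw [this]; push_cast; ring
  have hN0 : (0 : ℝ) ≤ 2 * (T : ℝ) + 1 := by positivity
  by_cases hpq : p = q
  · subst hpq
    rw [if_pos rfl]
    have h1 : ∀ a ∈ Icc (-(T : ℤ)) T, ∑ b ∈ Icc (-(T : ℤ)) T,
        (if (p : ℤ) ∣ a - b then ((jacobiSym a p : ℤ) : ℝ) else 0) *
        (if (p : ℤ) ∣ a - b then ((jacobiSym a p : ℤ) : ℝ) else 0) ≤
        (2 * (T : ℝ) + 1) / p + 1 := by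
      intro a _
      have h2 : ∀ b ∈ Icc (-(T : ℤ)) T,
          (if (p : ℤ) ∣ a - b then ((jacobiSym a p : ℤ) : ℝ) else 0) *
          (if (p : ℤ) ∣ a - b then ((jacobiSym a p : ℤ) : ℝ) else 0) ≤
          if (p : ℤ) ∣ a - b then 1 else 0 := by
        intro b _
        split_ifs
        · rcases jacobiSym.trichotomy a p with h | h | h <;> rw [h] <;> norm_num
        · norm_num
      refine (Finset.sum_le_sum h2).trans ?_
      rw [Finset.sum_ite, Finset.sum_const_zero, add_zero, Finset.sum_const, nsmul_eq_mul,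
        mul_one]
      have := (abs_le.1 (countI T a p hp.pos)).2
      linarith
    refine (Finset.sum_le_sum h1).trans ?_
    rw [Finset.sum_const, nsmul_eq_mul, hcI]
    have : (2 * (T : ℝ) + 1) * ((2 * (T : ℝ) + 1) / p + 1) =
      (2 * (T : ℝ) + 1) ^ 2 * (1 / (p : ℝ)) + (2 * (T : ℝ) + 1) := by ring
    rw [this]
    linarith
  · rw [if_neg hpq, zero_add]
    have hcop : Nat.Coprime p q := (Nat.coprime_primes hp hq).2 hpq
    have hm : 0 < p * q := Nat.mul_pos hp.pos hq.pos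
    set f : ℤ → ℝ := fun a => ((jacobiSym a p * jacobiSym a q : ℤ) : ℝ) with hf
    have h1 : ∀ a ∈ Icc (-(T : ℤ)) T, ∑ b ∈ Icc (-(T : ℤ)) T,
        (if (p : ℤ) ∣ a - b then ((jacobiSym a p : ℤ) : ℝ) else 0) *
        (if (q : ℤ) ∣ a - b then ((jacobiSym a q : ℤ) : ℝ) else 0) =
        f a * (((Icc (-(T : ℤ)) T).filter (fun b => ((p * q : ℕ) : ℤ) ∣ a - b)).card : ℝ) := by
      intro a _
      have h2 : ∀ b ∈ Icc (-(T : ℤ)) T,
          (if (p : ℤ) ∣ a - b then ((jacobiSym a p : ℤ) : ℝ) else 0) *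
          (if (q : ℤ) ∣ a - b then ((jacobiSym a q : ℤ) : ℝ) else 0) =
          if ((p * q : ℕ) : ℤ) ∣ a - b then f a else 0 := by
        intro b _
        have hiff : ((p * q : ℕ) : ℤ) ∣ a - b ↔ (p : ℤ) ∣ a - b ∧ (q : ℤ) ∣ a - b := by
          constructor
          · intro h
            push_cast at h
            exact ⟨dvd_trans (dvd_mul_right _ _) h, dvd_trans (dvd_mul_left _ _) h⟩
          · rintro ⟨h3, h4⟩
            push_cast
            exact IsCoprime.mul_dvd (Nat.isCoprime_iff_coprime.2 hcop) h3 h4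
        by_cases h3 : (p : ℤ) ∣ a - b
        · by_cases h4 : (q : ℤ) ∣ a - b
          · rw [if_pos h3, if_pos h4, if_pos (hiff.2 ⟨h3, h4⟩), hf]
            push_cast
            rfl
          · rw [if_neg h4, if_neg (fun h => h4 (hiff.1 h).2), mul_zero]
        · rw [if_neg h3, if_neg (fun h => h3 (hiff.1 h).1), zero_mul]
      rw [Finset.sum_congr rfl h2, Finset.sum_ite, Finset.sum_const_zero, add_zero,
        Finset.sum_const, nsmul_eq_mul, mul_comm]
    rw [Finset.sum_congr rfl h1]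
    set c : ℤ → ℝ := fun a =>
      (((Icc (-(T : ℤ)) T).filter (fun b => ((p * q : ℕ) : ℤ) ∣ a - b)).card : ℝ) with hc
    have h3 : ∑ a ∈ Icc (-(T : ℤ)) T, f a * c a =
        (2 * (T : ℝ) + 1) / ((p * q : ℕ) : ℝ) * ∑ a ∈ Icc (-(T : ℤ)) T, f a +
        ∑ a ∈ Icc (-(T : ℤ)) T, f a * (c a - (2 * (T : ℝ) + 1) / ((p * q : ℕ) : ℝ)) := by
      rw [Finset.mul_sum, ← Finset.sum_add_distrib]
      refine Finset.sum_congr rfl fun a _ => ?_
      ring
    have hsumf : ∑ a ∈ Icc (-(T : ℤ)) T, f a ≤ ((p * q : ℕ) : ℝ) := by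
      have e1 : Icc (-(T : ℤ)) T = Ico (-(T : ℤ)) (-(T : ℤ) + ((2 * T + 1 : ℕ) : ℤ)) := by
        ext b; simp only [mem_Icc, mem_Ico]; omega
      rw [e1, sum_Ico_range]
      exact (le_abs_self _).trans (charsum p q hp2 hq2 hpq (2 * T + 1) (-(T : ℤ)))
    have hmR : (0 : ℝ) < ((p * q : ℕ) : ℝ) := by exact_mod_cast hm
    have h4 : (2 * (T : ℝ) + 1) / ((p * q : ℕ) : ℝ) * ∑ a ∈ Icc (-(T : ℤ)) T, f a ≤
        2 * (T : ℝ) + 1 := by
      calc (2 * (T : ℝ) + 1) / ((p * q : ℕ) : ℝ) * ∑ a ∈ Icc (-(T : ℤ)) T, f a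
          ≤ (2 * (T : ℝ) + 1) / ((p * q : ℕ) : ℝ) * ((p * q : ℕ) : ℝ) :=
            mul_le_mul_of_nonneg_left hsumf (by positivity)
        _ = 2 * (T : ℝ) + 1 := by field_simp
    have h5 : ∑ a ∈ Icc (-(T : ℤ)) T, f a * (c a - (2 * (T : ℝ) + 1) / ((p * q : ℕ) : ℝ)) ≤
        2 * (T : ℝ) + 1 := by
      have h6 : ∀ a ∈ Icc (-(T : ℤ)) T,
          f a * (c a - (2 * (T : ℝ) + 1) / ((p * q : ℕ) : ℝ)) ≤ 1 := by
        intro a _
        refine (le_abs_self _).trans ?_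
        rw [abs_mul]
        refine mul_le_one₀ ?_ (abs_nonneg _) (countI T a (p * q) hm)
        rw [hf]
        push_cast
        rw [abs_mul]
        exact mul_le_one₀ (hone _ _) (abs_nonneg _) (hone _ _)
      refine (Finset.sum_le_sum h6).trans ?_
      rw [Finset.sum_const, nsmul_eq_mul, hcI, mul_one]
    rw [h3]
    linarith

theorem chr : CHR := by
  intro y T
  have hVV : ∀ a b : ℤ, VV y a b =
      ∑ p ∈ PP y, if (p : ℤ) ∣ a - b then ((jacobiSym a p : ℤ) : ℝ) else 0 := by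
    intro a b
    unfold VV
    rw [Finset.sum_filter]
  have h1 : ∑ a ∈ Icc (-(T : ℤ)) T, ∑ b ∈ Icc (-(T : ℤ)) T, VV y a b ^ 2 =
      ∑ p ∈ PP y, ∑ q ∈ PP y, ∑ a ∈ Icc (-(T : ℤ)) T, ∑ b ∈ Icc (-(T : ℤ)) T,
      (if (p : ℤ) ∣ a - b then ((jacobiSym a p : ℤ) : ℝ) else 0) *
        (if (q : ℤ) ∣ a - b then ((jacobiSym a q : ℤ) : ℝ) else 0) := by
    have h2 : ∀ a b : ℤ, VV y a b ^ 2 = ∑ p ∈ PP y, ∑ q ∈ PP y,
      (if (p : ℤ) ∣ a - b then ((jacobiSym a p : ℤ) : ℝ) else 0) *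
        (if (q : ℤ) ∣ a - b then ((jacobiSym a q : ℤ) : ℝ) else 0) := by
      intro a b
      rw [hVV, sq, Finset.sum_mul_sum]
    simp only [h2]
    rw [Finset.sum_congr rfl fun a _ => Finset.sum_comm]
    rw [Finset.sum_comm]
    refine Finset.sum_congr rfl fun p _ => ?_
    rw [Finset.sum_congr rfl fun a _ => Finset.sum_comm]
    rw [Finset.sum_comm]
  rw [h1]
  have hmem : ∀ p ∈ PP y, p.Prime ∧ p ≠ 2 := by
    intro p hp
    unfold PP at hp
    exact (mem_filter.1 hp).2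
  refine (Finset.sum_le_sum fun p hp => Finset.sum_le_sum fun q hq =>
    pairbound T p q (hmem p hp).1 (hmem p hp).2 (hmem q hq).1 (hmem q hq).2).trans ?_
  simp only [Finset.sum_add_distrib, Finset.sum_const, nsmul_eq_mul]
  have h3 : ∑ p ∈ PP y, ∑ q ∈ PP y,
      (if p = q then (2 * (T : ℝ) + 1) ^ 2 * (1 / (p : ℝ)) else 0) =
      (2 * (T : ℝ) + 1) ^ 2 * LL y := by
    unfold LL
    rw [Finset.mul_sum]
    refine Finset.sum_congr rfl fun p hp => ?_
    rw [Finset.sum_ite_eq, if_pos hp]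
  rw [h3]
  have hc := PP_card y
  have hc0 : (0 : ℝ) ≤ ((PP y).card : ℝ) := Nat.cast_nonneg _
  have hcc : ((PP y).card : ℝ) * ((PP y).card : ℝ) ≤ (y : ℝ) ^ 2 := by nlinarith
  have hN0 : (0 : ℝ) ≤ 2 * (T : ℝ) + 1 := by positivity
  have h4 : ((PP y).card : ℝ) * (((PP y).card : ℝ) * (2 * (2 * (T : ℝ) + 1))) ≤
      3 * (2 * (T : ℝ) + 1) * (y : ℝ) ^ 2 := by
    calc ((PP y).card : ℝ) * (((PP y).card : ℝ) * (2 * (2 * (T : ℝ) + 1))) =
        (((PP y).card : ℝ) * ((PP y).card : ℝ)) * (2 * (2 * (T : ℝ) + 1)) := by ring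
      _ ≤ (y : ℝ) ^ 2 * (2 * (2 * (T : ℝ) + 1)) := mul_le_mul_of_nonneg_right hcc (by positivity)
      _ ≤ 3 * (2 * (T : ℝ) + 1) * (y : ℝ) ^ 2 := by nlinarith [sq_nonneg (y : ℝ)]
  linarith

end Pool.Agent.W940.LSD
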