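import Pool.Agent.W307.LS.Stm

/-!
# Project LS, part DENS: statements of the pieces
-/

set_option autoImplicit false

namespace Pool.Agent.W940.LSD

open Finset Filter Pool.Agent.W307.LS

open scoped Classical

/-- the odd primes up to `y` -/
noncomputable def PP (y : ℕ) : Finset ℕ := (Finset.range (y + 1)).filter (fun p => p.Prime ∧ p ≠ 2)

/-- the sum of the reciprocals of the odd primes up to `y` -/
noncomputable def LL (y : ℕ) : ℝ := ∑ p ∈ PP y, (1 : ℝ) / p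

/-- the number of odd primes up to `y` that divide `n` -/
noncomputable def ww (y : ℕ) (n : ℤ) : ℕ := ((PP y).filter (fun p : ℕ => (p : ℤ) ∣ n)).card

/-- the character sum -/
noncomputable def VV (y : ℕ) (a b : ℤ) : ℝ :=
  ∑ p ∈ (PP y).filter (fun p : ℕ => (p : ℤ) ∣ a - b), ((jacobiSym a p : ℤ) : ℝ)

/-- the number of odd primes whose square divides `a b` -/
noncomputable def MM (a b : ℤ) : ℕ :=
  ((a * b).natAbs.primeFactors.filter (fun p => p ≠ 2 ∧ (p : ℤ) ^ 2 ∣ a * b)).card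

/-- the main part -/
noncomputable def gg (y : ℕ) (a b : ℤ) : ℝ :=
  (ww y a : ℝ) + (ww y b : ℝ) - ((ww y (a - b) : ℝ) + VV y a b) / 2

/-- the integer part of the eighth root -/
def yy (T : ℕ) : ℕ := T.sqrt.sqrt.sqrt

/-- TUR: Turan's inequality on an interval -/
def TUR : Prop := ∀ (y : ℕ) (A : ℤ) (N : ℕ),
  ∑ n ∈ Ico A (A + N), ((ww y n : ℝ) - LL y) ^ 2 ≤ 2 * N * LL y + 4 * (y : ℝ) ^ 2

/-- CHR: the second moment of the character sum -/
def CHR : Prop := ∀ (y T : ℕ),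
  ∑ a ∈ Icc (-(T : ℤ)) T, ∑ b ∈ Icc (-(T : ℤ)) T, VV y a b ^ 2 ≤
    (2 * (T : ℝ) + 1) ^ 2 * LL y + 3 * (2 * (T : ℝ) + 1) * (y : ℝ) ^ 2

/-- MER: Mertens -/
def MER : Prop := ∃ C : ℝ, ∀ᶠ T : ℕ in atTop, |LL (yy T) - Real.log (Real.log T)| ≤ C

/-- MSB: the sum of `MM` -/
def MSB : Prop := ∀ T : ℕ, ∑ t ∈ Bx T, (MM t.1 t.2 : ℝ) ≤ 24 * (T : ℝ) ^ 2

/-- DET: the deterministic lower bound -/
def DET : Prop := ∀ᶠ T : ℕ in atTop, ∀ t ∈ Bx T,
  gg (yy T) t.1 t.2 - 3 * (MM t.1 t.2 : ℝ) - 9 ≤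
    ((SS t.1 t.2).card : ℝ) - ((BB t.1 t.2).card : ℝ)

end Pool.Agent.W940.LSD
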